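import Pool.Agent.W680.WH.Stm

/-!
# WHH-LEX: existence of lifts
-/

set_option autoImplicit false

open scoped ComplexConjugate InnerProductSpace
open ContinuousLinearMap Filter

namespace Pool.Agent.W427.WH

open Pool.Agent.W680.WH

lemma norm_le_one_of_isom (U : E →L[ℂ] E) (h : adjoint U * U = 1) : ‖U‖ ≤ 1 := by
  refine ContinuousLinearMap.opNorm_le_bound _ zero_le_one (fun f => ?_)
  have h1 : ⟪U f, U f⟫_ℂ = ⟪f, f⟫_ℂ := by
    rw [← ContinuousLinearMap.adjoint_inner_right]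
    have : adjoint U (U f) = (adjoint U * U) f := rfl
    rw [this, h]; rfl
  have h2 : ‖U f‖ ^ 2 = ‖f‖ ^ 2 := by
    have a := congrArg Complex.re h1
    rw [inner_self_eq_norm_sq_to_K, inner_self_eq_norm_sq_to_K] at a
    exact_mod_cast a
  have h3 : ‖U f‖ = ‖f‖ := by
    have := (sq_eq_sq₀ (norm_nonneg _) (norm_nonneg _)).1 h2
    exact this
  rw [h3, one_mul]

/-- blocks: the lift equation from its two parts -/
lemma blk_eq (hBLA : S_BLA) (V d P B : E →L[ℂ] E) (M : E2 →L[ℂ] E2) (hM : M = blk P B P)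
    (h1 : V * P = Z * V) (h2 : V * B + V * d * P = Z * (V * d) + X * V) :
    blk V (V * d) V * M = T * blk V (V * d) V := by
  rw [hM, T, hBLA.1, hBLA.1, h1, h2]

lemma rot_lift (hBLA : S_BLA) (hBLM : S_BLM) (hOPR : S_OPR) (hOPJ : S_OPJ)
    (k : Circle) (φ : Mob) (hc : φ.c = k) (ha : φ.a = 0) : Lift φ (R k⁻¹) 0 := by
  obtain ⟨-, hRZ, hRX, hRR, hR1, hRa, -⟩ := hOPR
  have hk : (k : ℂ) ≠ 0 := Circle.coe_ne_zero k
  have hki : ((k⁻¹ : Circle) : ℂ) = (k : ℂ)⁻¹ := by simp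
  refine ⟨?_, ?_, fun f => hOPJ.2.2.2.2.1 _ _, by simp, fun f => ?_, ?_⟩
  · rw [hRa, hRR, inv_inv, mul_inv_cancel, hR1]
  · rw [hRa, hRR, inv_inv, inv_mul_cancel, hR1]
  · have h8 := hOPJ.2.2.2.2.2.2.2.1 0 (0 : E)
    simp only [zero_smul, map_zero] at h8
    simpa using h8
  · have h4 := hBLM.2.2.2 φ X
    refine blk_eq hBLA _ _ _ _ _ h4 ?_ ?_
    · have : φ.op Z = (k : ℂ) • Z := by
        simp only [Mob.op, mob, hc, ha, map_zero, zero_smul, sub_zero, Ring.inverse_one, mul_one]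
      rw [this, mul_smul_comm, hRZ, smul_smul, hki, mul_inv_cancel₀ hk, one_smul]
    · have h5 : ((φ.c * (1 - conj φ.a * φ.a)) • (Ring.inverse (1 - (conj φ.a) • Z) * X *
        Ring.inverse (1 - (conj φ.a) • Z))) = (k : ℂ) • X := by
        simp only [hc, ha, map_zero, zero_smul, sub_zero, Ring.inverse_one, mul_one, one_mul,
          mul_zero]
      rw [h5, mul_smul_comm, hRX, smul_smul, hki, mul_inv_cancel₀ hk, one_smul]
      simp

/-- inverse of `1 - a A` commutes with everything that commutes with `A` -/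
lemma inv_comm (A D : E →L[ℂ] E) (hA : IsUnit A) (h : A * D = D * A) :
    Ring.inverse A * D = D * Ring.inverse A := by
  have h1 : Ring.inverse A * A = 1 := Ring.inverse_mul_cancel A hA
  have h2 : A * Ring.inverse A = 1 := Ring.mul_inverse_cancel A hA
  calc Ring.inverse A * D = Ring.inverse A * D * (A * Ring.inverse A) := by rw [h2, mul_one]
    _ = Ring.inverse A * (D * A) * Ring.inverse A := by simp only [mul_assoc]
    _ = Ring.inverse A * (A * D) * Ring.inverse A := by rw [h]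
    _ = (Ring.inverse A * A) * D * Ring.inverse A := by simp only [mul_assoc]
    _ = D * Ring.inverse A := by rw [h1, one_mul]

lemma adj_one : adjoint (1 : E →L[ℂ] E) = 1 := by
  have := star_one (E →L[ℂ] E)
  rwa [ContinuousLinearMap.star_eq_adjoint] at this

lemma adj_mul (A B : E →L[ℂ] E) : adjoint (A * B) = adjoint B * adjoint A := by
  have := star_mul A B
  simpa only [ContinuousLinearMap.star_eq_adjoint] using this

lemma adj_smul (c : ℂ) (A : E →L[ℂ] E) : adjoint (c • A) = (conj c) • adjoint A := by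
  exact map_smulₛₗ (adjoint : (E →L[ℂ] E) ≃ₗᵢ⋆[ℂ] (E →L[ℂ] E)) c A

lemma adj_sub (A B : E →L[ℂ] E) : adjoint (A - B) = adjoint A - adjoint B := by
  have := star_sub A B
  simpa only [ContinuousLinearMap.star_eq_adjoint] using this

set_option maxHeartbeats 2000000 in
lemma hyp_lift (hBLA : S_BLA) (hBLM : S_BLM) (hINV : S_INV) (hOPA : S_OPA)
    (r : ℝ) (hr0 : 0 ≤ r) (hr1 : r < 1) (V d : E →L[ℂ] E)
    (hV1 : adjoint V * V = 1) (hV2 : V * adjoint V = 1)
    (hVZ : (1 + (r : ℂ) • Z) * V * Z = (Z + (r : ℂ) • (1 : E →L[ℂ] E)) * V)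
    (hVj : ∀ f, jj (V f) = V (jj f)) (hd : adjoint d = -d) (hdj : ∀ f, jj (d f) = d (jj f))
    (hDR : ∀ G P P2 P2i : E →L[ℂ] E, G = Ring.inverse (1 - (r : ℂ) • Z) →
      P = (Z - (r : ℂ) • 1) * G →
      P2 = (Z2 - (r : ℂ) • 1) * Ring.inverse (1 - (r : ℂ) • Z2) →
      P2i = (Zs - (r : ℂ) • 1) * Ring.inverse (1 - (r : ℂ) • Zs) →
      ((1 - r ^ 2 : ℝ) : ℂ) • (G * X * G) =
        -((2 : ℂ) • (P - P2) + (P - P2) * P2i * (P - P2)) + (P * d - d * P))
    (φ : Mob) (hc : φ.c = 1) (ha : φ.a = r) : Lift φ V d := by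
  refine ⟨hV1, hV2, hVj, hd, hdj, ?_⟩
  have hrn : ‖(r : ℂ)‖ < 1 := by
    rw [Complex.norm_real, Real.norm_of_nonneg hr0]; exact hr1
  obtain ⟨uZ, -, uZ2, uZs, -, -⟩ := hINV (r : ℂ) hrn
  obtain ⟨⟨-, -, hZ2Zs, hZsZ2⟩, ⟨hadjZ, -⟩, -, -⟩ := hOPA
  set G : E →L[ℂ] E := Ring.inverse (1 - (r : ℂ) • Z) with hG
  set P : E →L[ℂ] E := (Z - (r : ℂ) • 1) * G with hP
  set G2 : E →L[ℂ] E := Ring.inverse (1 - (r : ℂ) • Z2) with hG2
  set Gs : E →L[ℂ] E := Ring.inverse (1 - (r : ℂ) • Zs) with hGs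
  set P2 : E →L[ℂ] E := (Z2 - (r : ℂ) • 1) * G2 with hP2
  set P2i : E →L[ℂ] E := (Zs - (r : ℂ) • 1) * Gs with hP2i
  have key := hDR G P P2 P2i rfl rfl rfl rfl
  clear hDR
  clear_value P2i P2 P Gs G2 G
  have gZ : (1 - (r : ℂ) • Z) * G = 1 := by rw [hG]; exact Ring.mul_inverse_cancel _ uZ
  have gZ' : G * (1 - (r : ℂ) • Z) = 1 := by rw [hG]; exact Ring.inverse_mul_cancel _ uZ
  have gZ2 : (1 - (r : ℂ) • Z2) * G2 = 1 := by rw [hG2]; exact Ring.mul_inverse_cancel _ uZ2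
  have gZs : (1 - (r : ℂ) • Zs) * Gs = 1 := by rw [hGs]; exact Ring.mul_inverse_cancel _ uZs
  have gZs' : Gs * (1 - (r : ℂ) • Zs) = 1 := by rw [hGs]; exact Ring.inverse_mul_cancel _ uZs
  -- V P = Z V
  have hVP : V * P = Z * V := by
    have e1 : V * (Z - (r : ℂ) • 1) = Z * V * (1 - (r : ℂ) • Z) := by
      have e2 : V * Z + (r : ℂ) • (Z * V * Z) = Z * V + (r : ℂ) • V := by
        have := hVZ
        simp only [add_mul, smul_mul_assoc, one_mul] at this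
        simpa only [mul_assoc] using this
      simp only [mul_sub, mul_smul_comm, mul_one]
      rw [sub_eq_sub_iff_add_eq_add]
      exact e2
    calc V * P = V * (Z - (r : ℂ) • 1) * G := by rw [hP, mul_assoc]
      _ = Z * V * (1 - (r : ℂ) • Z) * G := by rw [e1]
      _ = Z * V * ((1 - (r : ℂ) • Z) * G) := by simp only [mul_assoc]
      _ = Z * V := by rw [gZ, mul_one]
  -- adjoint of P
  have hadjG : adjoint G = Gs := by
    have e1 : adjoint G * (1 - (r : ℂ) • Zs) = 1 := by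
      have := congrArg adjoint gZ
      rw [adj_mul, adj_sub, adj_smul, adj_one, hadjZ, Complex.conj_ofReal] at this
      exact this
    calc adjoint G = adjoint G * ((1 - (r : ℂ) • Zs) * Gs) := by rw [gZs, mul_one]
      _ = (adjoint G * (1 - (r : ℂ) • Zs)) * Gs := by rw [mul_assoc]
      _ = Gs := by rw [e1, one_mul]
  have hcomms : (1 - (r : ℂ) • Zs) * (Zs - (r : ℂ) • 1) = (Zs - (r : ℂ) • 1) * (1 - (r : ℂ) • Zs) := by
    simp only [mul_sub, sub_mul, mul_smul_comm, smul_mul_assoc, mul_one, one_mul, smul_sub]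
    abel
  have hadjP : adjoint P = P2i := by
    rw [hP, adj_mul, adj_sub, adj_smul, adj_one, hadjZ, hadjG, Complex.conj_ofReal, hP2i]
    rw [hGs]; exact inv_comm _ _ uZs hcomms
  have hP2iV : P2i = adjoint V * Zs * V := by
    have e1 := congrArg adjoint hVP
    rw [adj_mul V P, adj_mul Z V, hadjZ, hadjP] at e1
    calc P2i = P2i * (adjoint V * V) := by rw [hV1, mul_one]
      _ = (P2i * adjoint V) * V := by rw [mul_assoc]
      _ = adjoint V * Zs * V := by rw [e1]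
  -- P2 P2i = 1
  have hP2P2i : P2 * P2i = 1 := by
    have e1 : Z2 - (r : ℂ) • 1 = (1 - (r : ℂ) • Zs) * Z2 := by
      simp only [sub_mul, smul_mul_assoc, one_mul, hZsZ2]
    have e2 : Zs - (r : ℂ) • 1 = (1 - (r : ℂ) • Z2) * Zs := by
      simp only [sub_mul, smul_mul_assoc, one_mul, hZ2Zs]
    have e3 : (1 - (r : ℂ) • Z2) * Z2 = Z2 * (1 - (r : ℂ) • Z2) := by
      simp only [mul_sub, sub_mul, mul_smul_comm, smul_mul_assoc, mul_one, one_mul]
    have e4 : G2 * Z2 = Z2 * G2 := by rw [hG2]; exact inv_comm _ _ uZ2 e3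
    have e5 : G2 * (1 - (r : ℂ) • Z2) = 1 := by rw [hG2]; exact Ring.inverse_mul_cancel _ uZ2
    calc P2 * P2i = (1 - (r : ℂ) • Zs) * Z2 * G2 * ((1 - (r : ℂ) • Z2) * Zs * Gs) := by
          rw [hP2, hP2i, e1, e2]
      _ = (1 - (r : ℂ) • Zs) * Z2 * (G2 * (1 - (r : ℂ) • Z2)) * Zs * Gs := by
          simp only [mul_assoc]
      _ = (1 - (r : ℂ) • Zs) * (Z2 * Zs) * Gs := by rw [e5, mul_one, mul_assoc (1 - (r : ℂ) • Zs)]
      _ = 1 := by rw [hZ2Zs, mul_one, gZs]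
  have hP2V : P2 = adjoint V * Z2 * V := by
    have e1 : P2i * (adjoint V * Z2 * V) = 1 := by
      rw [hP2iV]
      calc adjoint V * Zs * V * (adjoint V * Z2 * V)
          = adjoint V * Zs * (V * adjoint V) * Z2 * V := by simp only [mul_assoc]
        _ = adjoint V * (Zs * Z2) * V := by rw [hV2, mul_one, mul_assoc (adjoint V)]
        _ = 1 := by rw [hZsZ2, mul_one, hV1]
    calc P2 = P2 * (P2i * (adjoint V * Z2 * V)) := by rw [e1, mul_one]
      _ = (P2 * P2i) * (adjoint V * Z2 * V) := by rw [mul_assoc P2 P2i]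
      _ = adjoint V * Z2 * V := by rw [hP2P2i, one_mul]
  have hPV : P = adjoint V * Z * V := by
    calc P = (adjoint V * V) * P := by rw [hV1, one_mul]
      _ = adjoint V * (V * P) := by rw [mul_assoc]
      _ = adjoint V * Z * V := by rw [hVP, mul_assoc]
  have hQV : P - P2 = adjoint V * Q * V := by
    rw [hPV, hP2V, Q, mul_sub, sub_mul]
  have hXV : -((2 : ℂ) • (P - P2) + (P - P2) * P2i * (P - P2)) = adjoint V * X * V := by
    rw [hQV, hP2iV, X]
    have e1 : adjoint V * Q * V * (adjoint V * Zs * V) * (adjoint V * Q * V)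
        = adjoint V * (Q * Zs * Q) * V := by
      calc adjoint V * Q * V * (adjoint V * Zs * V) * (adjoint V * Q * V)
          = adjoint V * Q * (V * adjoint V) * Zs * (V * adjoint V) * Q * V := by
            simp only [mul_assoc]
        _ = adjoint V * (Q * Zs * Q) * V := by rw [hV2]; simp only [mul_one, mul_assoc]
    rw [e1]
    simp only [mul_neg, neg_mul, mul_add, add_mul, mul_smul_comm, smul_mul_assoc]
  rw [hXV] at key
  have h4 := hBLM.2.2.2 φ X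
  have hra : (conj φ.a) = (r : ℂ) := by rw [ha, Complex.conj_ofReal]
  have hop : φ.op Z = P := by
    simp only [Mob.op, mob, hc, hra, one_smul]
    rw [ha, hP, hG]
  have hB : ((φ.c * (1 - conj φ.a * φ.a)) • (Ring.inverse (1 - (conj φ.a) • Z) * X *
        Ring.inverse (1 - (conj φ.a) • Z))) = ((1 - r ^ 2 : ℝ) : ℂ) • (G * X * G) := by
    rw [hra, hc, ha, one_mul, ← hG]
    congr 1
    push_cast
    ring
  rw [hop, hB] at h4
  refine blk_eq hBLA V d P _ _ h4 hVP ?_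
  rw [key]
  have e1 : V * (adjoint V * X * V) = X * V := by
    calc V * (adjoint V * X * V) = (V * adjoint V) * X * V := by simp only [mul_assoc]
      _ = X * V := by rw [hV2, one_mul]
  have e2 : V * (P * d) = Z * (V * d) := by
    calc V * (P * d) = (V * P) * d := by rw [mul_assoc]
      _ = Z * (V * d) := by rw [hVP, mul_assoc]
  rw [mul_add, mul_sub, e1, e2, mul_assoc V d P]
  abel

theorem lex (hUNI : S_UNI) (hDR : S_DR) (hMOBG : S_MOBG) (hBLA : S_BLA) (hBLM : S_BLM)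
    (hINV : S_INV) (hLMU : S_LMU) (hOPA : S_OPA) (hOPR : S_OPR) (hOPJ : S_OPJ) (hOPC : S_OPC) :
    S_LEX := by
  refine ⟨fun k φ hc ha => rot_lift hBLA hBLM hOPR hOPJ k φ hc ha, ?_⟩
  obtain ⟨C, hC⟩ := hDR
  refine ⟨C, fun φ => ?_⟩
  obtain ⟨k, l, r, α, β, ρ, σ, hr0, hr1, hαc, hαa, hβc, hβa, hρc, hρa, hσ, hφ⟩ := hMOBG.2.2.2.2 φ
  obtain ⟨V, hV1, hV2, hVZ, hVj, γ, hγ, hγ0, hγn⟩ := hUNI r hr0 hr1
  obtain ⟨d, hd, hdj, hdC, hDRr⟩ := hC r hr0 hr1
  have hyp : ∀ ψ : Mob, ψ.c = 1 → ψ.a = r → Lift ψ V d := fun ψ h1 h2 =>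
    hyp_lift hBLA hBLM hINV hOPA r hr0 hr1 V d hV1 hV2 hVZ hVj hd hdj hDRr ψ h1 h2
  have Lα := rot_lift hBLA hBLM hOPR hOPJ k α hαc hαa
  have Lβ := rot_lift hBLA hBLM hOPR hOPJ l β hβc hβa
  have Lρ := hyp ρ hρc hρa
  have Lσ := hLMU.1 α ρ σ _ _ _ _ hσ Lα Lρ
  have Lφ := hLMU.1 σ β φ _ _ _ _ hφ Lσ Lβ
  refine ⟨k⁻¹, l⁻¹, r, V, _, γ, hr0, hr1, Lφ, ?_, ?_, fun ψ h1 h2 => ⟨d, hyp ψ h1 h2⟩, hγ, hγ0,
    hγn⟩
  · have hR : ‖R l⁻¹‖ ≤ 1 := norm_le_one_of_isom _ Lβ.1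
    have hR' : ‖adjoint (R l⁻¹)‖ ≤ 1 := by
      rw [LinearIsometryEquiv.norm_map]; exact hR
    have e0 : (0 + adjoint (R l⁻¹) * (d + adjoint V * 0 * V) * R l⁻¹ : E →L[ℂ] E)
        = adjoint (R l⁻¹) * d * R l⁻¹ := by
      rw [mul_zero, zero_mul, add_zero, zero_add]
    rw [e0]
    calc ‖adjoint (R l⁻¹) * d * R l⁻¹‖ ≤ ‖adjoint (R l⁻¹) * d‖ * ‖R l⁻¹‖ := norm_mul_le _ _
      _ ≤ (‖adjoint (R l⁻¹)‖ * ‖d‖) * ‖R l⁻¹‖ := by
          exact mul_le_mul_of_nonneg_right (norm_mul_le _ _) (norm_nonneg _)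
      _ ≤ (1 * ‖d‖) * 1 := by
          apply mul_le_mul _ hR (norm_nonneg _) (by positivity)
          exact mul_le_mul_of_nonneg_right hR' (norm_nonneg _)
      _ ≤ C := by rw [one_mul, mul_one]; exact hdC
  · have hin := hOPC.2.2.2.2.2.2.2.2.2.1
    obtain ⟨hReb, -, -, -, -, -, hRco⟩ := hOPR
    have e1 : (R k⁻¹ * V * R l⁻¹) (eb 0) = R k⁻¹ (V (eb 0)) := by
      change R k⁻¹ (V (R l⁻¹ (eb 0))) = R k⁻¹ (V (eb 0))
      rw [hReb]
      simp
    rw [Pos, e1, hin, hRco, hγn]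
    simp only [zpow_zero, Circle.coe_one, one_mul, om_zero]
    simpa using hγ0

end Pool.Agent.W427.WH
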